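import Mathlib

/-! # Admissible residue classes of a tuple (helper13) -/

set_option autoImplicit false

open Finset

namespace Pool.Agent.Q13.TU

/-- The admissible classes modulo `P`: all `a + h`, `h ∈ K`, are prime to `P`. -/
def Adm (K : Finset ℕ) (P : ℕ) : Finset ℕ :=
  (range P).filter (fun a => ∀ h ∈ K, (a + h).Coprime P)

variable {K : Finset ℕ}

lemma mem_Adm {P a : ℕ} : a ∈ Adm K P ↔ a < P ∧ ∀ h ∈ K, (a + h).Coprime P := by
  unfold Adm; rw [mem_filter, mem_range]

lemma Adm_one : Adm K 1 = {0} := by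
  ext a
  rw [mem_Adm, mem_singleton]
  constructor
  · rintro ⟨h, -⟩; omega
  · rintro rfl; exact ⟨one_pos, fun h _ => Nat.coprime_one_right _⟩

/-- the lifts of the class `a` modulo `q` to the modulus `q * m` -/
def fib (K : Finset ℕ) (q m a : ℕ) : Finset ℕ := (Adm K (q * m)).filter (fun b => b % q = a)

lemma coprime_mod {b h q : ℕ} (hc : (b + h).Coprime q) : (b % q + h).Coprime q := by
  have e : b + h = b % q + h + q * (b / q) := by
    have := Nat.div_add_mod b q
    omega
  rw [e] at hc
  exact (Nat.coprime_add_mul_left_left _ _ _).1 hc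

lemma mod_mem {q m b : ℕ} (hq : 0 < q) (hb : b ∈ Adm K (q * m)) : b % q ∈ Adm K q := by
  rw [mem_Adm] at hb ⊢
  exact ⟨Nat.mod_lt _ hq, fun h hh => coprime_mod (Nat.Coprime.coprime_dvd_right (Dvd.intro _ rfl) (hb.2 h hh))⟩

lemma card_fib_dvd {q l a : ℕ} (hq : 0 < q) (hl : l.Prime) (hd : l ∣ q) (ha : a ∈ Adm K q) :
    (fib K q l a).card = l := by
  rw [mem_Adm] at ha
  have e : fib K q l a = (range l).image (fun t => a + q * t) := by
    ext b
    unfold fib
    rw [mem_filter, mem_image]
    constructor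
    · rintro ⟨h1, h2⟩
      rw [mem_Adm] at h1
      refine ⟨b / q, ?_, ?_⟩
      · rw [mem_range]; exact Nat.div_lt_of_lt_mul h1.1
      · rw [← h2]; exact Nat.mod_add_div b q
    · rintro ⟨t, ht, rfl⟩
      rw [mem_range] at ht
      refine ⟨?_, ?_⟩
      · rw [mem_Adm]
        refine ⟨?_, fun h hh => ?_⟩
        · have : q * (t + 1) ≤ q * l := Nat.mul_le_mul_left _ ht
          have h3 := ha.1
          rw [mul_add] at this; omega
        · have h4 : (a + q * t + h).Coprime q := by
            have e : a + q * t + h = a + h + q * t := by ring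
            rw [e]
            exact (Nat.coprime_add_mul_left_left _ _ _).2 (ha.2 h hh)
          exact Nat.Coprime.mul_right h4 (Nat.Coprime.coprime_dvd_right hd h4)
      · rw [Nat.add_mul_mod_self_left]; exact Nat.mod_eq_of_lt ha.1
  rw [e, card_image_of_injective, card_range]
  intro x y hxy
  dsimp only at hxy
  exact Nat.eq_of_mul_eq_mul_left hq (by omega)

lemma card_fib_not_dvd {q l a : ℕ} (hq : 0 < q) (hl : l.Prime) (hd : ¬ l ∣ q) (ha : a ∈ Adm K q) :
    (fib K q l a).card = (Adm K l).card := by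
  have hcop : q.Coprime l := ((Nat.Prime.coprime_iff_not_dvd hl).2 hd).symm
  rw [mem_Adm] at ha
  refine card_bij (fun b _ => b % l) (fun b hb => ?_) (fun b hb b' hb' h => ?_) (fun c hc => ?_)
  · unfold fib at hb
    rw [mem_filter] at hb
    have h1 := hb.1
    rw [mul_comm] at h1
    exact mod_mem hl.pos h1
  · unfold fib at hb hb'
    rw [mem_filter, mem_Adm] at hb hb'
    have h1 : b ≡ b' [MOD q] := by unfold Nat.ModEq; rw [hb.2, hb'.2]
    have h2 : b ≡ b' [MOD l] := h
    have h3 := (Nat.modEq_and_modEq_iff_modEq_mul hcop).1 ⟨h1, h2⟩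
    exact Nat.ModEq.eq_of_lt_of_lt h3 hb.1.1 hb'.1.1
  · rw [mem_Adm] at hc
    obtain ⟨k, hk⟩ : ∃ k, k = Nat.chineseRemainder hcop a c := ⟨_, rfl⟩
    have hlt : (k : ℕ) < q * l := by
      rw [hk]; exact Nat.chineseRemainder_lt_mul hcop a c hq.ne' hl.ne_zero
    have h1 : (k : ℕ) % q = a := by
      have := k.2.1
      unfold Nat.ModEq at this
      rw [this]; exact Nat.mod_eq_of_lt ha.1
    have h2 : (k : ℕ) % l = c := by
      have := k.2.2
      unfold Nat.ModEq at this
      rw [this]; exact Nat.mod_eq_of_lt hc.1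
    refine ⟨k, ?_, h2⟩
    unfold fib
    rw [mem_filter, mem_Adm]
    refine ⟨⟨hlt, fun h hh => ?_⟩, h1⟩
    refine Nat.Coprime.mul_right ?_ ?_
    · have e : (k : ℕ) + h = a + h + q * ((k : ℕ) / q) := by
        have := Nat.div_add_mod (k : ℕ) q
        omega
      rw [e]
      exact (Nat.coprime_add_mul_left_left _ _ _).2 (ha.2 h hh)
    · have e : (k : ℕ) + h = c + h + l * ((k : ℕ) / l) := by
        have := Nat.div_add_mod (k : ℕ) l
        omega
      rw [e]
      exact (Nat.coprime_add_mul_left_left _ _ _).2 (hc.2 h hh)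

lemma fib_uniform (m : ℕ) : ∀ q : ℕ, 0 < q → ∃ u : ℕ, ∀ a ∈ Adm K q, (fib K q m a).card = u := by
  induction m using Nat.recOnMul with
  | zero =>
    intro q _
    refine ⟨0, fun a _ => ?_⟩
    unfold fib Adm
    simp
  | one =>
    intro q hq
    refine ⟨1, fun a ha => ?_⟩
    rw [card_eq_one]
    refine ⟨a, ?_⟩
    ext b
    unfold fib
    rw [mem_filter, mul_one, mem_singleton]
    constructor
    · rintro ⟨h1, h2⟩
      rw [mem_Adm] at h1
      rwa [Nat.mod_eq_of_lt h1.1] at h2
    · rintro rfl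
      exact ⟨ha, Nat.mod_eq_of_lt (mem_Adm.1 ha).1⟩
  | prime l hl =>
    intro q hq
    by_cases hd : l ∣ q
    · exact ⟨l, fun a ha => card_fib_dvd hq hl hd ha⟩
    · exact ⟨_, fun a ha => card_fib_not_dvd hq hl hd ha⟩
  | mul m₁ m₂ ih1 ih2 =>
    intro q hq
    rcases Nat.eq_zero_or_pos m₁ with h0 | h0
    · refine ⟨0, fun a _ => ?_⟩
      unfold fib Adm
      simp [h0]
    obtain ⟨u1, h1⟩ := ih1 q hq
    obtain ⟨u2, h2⟩ := ih2 (q * m₁) (Nat.mul_pos hq h0)
    refine ⟨u1 * u2, fun a ha => ?_⟩
    have hm : ∀ b ∈ fib K q (m₁ * m₂) a, b % (q * m₁) ∈ fib K q m₁ a := by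
      intro b hb
      unfold fib at hb ⊢
      rw [mem_filter] at hb ⊢
      refine ⟨?_, ?_⟩
      · have := hb.1
        rw [← mul_assoc] at this
        exact mod_mem (Nat.mul_pos hq h0) this
      · rw [Nat.mod_mod_of_dvd _ (Dvd.intro _ rfl)]; exact hb.2
    rw [card_eq_sum_card_fiberwise hm]
    rw [sum_congr rfl (g := fun _ => u2), sum_const, h1 a ha, smul_eq_mul]
    intro a' ha'
    have ha'' : a' ∈ Adm K (q * m₁) := by
      unfold fib at ha'; exact (mem_filter.1 ha').1
    rw [← h2 a' ha'']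
    congr 1
    ext b
    unfold fib at ha' ⊢
    rw [mem_filter] at ha'
    rw [mem_filter, mem_filter, mem_filter, ← mul_assoc]
    constructor
    · rintro ⟨⟨k1, k2⟩, k3⟩; exact ⟨k1, k3⟩
    · rintro ⟨k1, k2⟩
      refine ⟨⟨k1, ?_⟩, k2⟩
      rw [← ha'.2, ← k2, Nat.mod_mod_of_dvd _ (Dvd.intro _ rfl)]

/-- **Uniform fibres** -/
lemma fib_card {q m : ℕ} (hq : 0 < q) : ∀ a ∈ Adm K q,
    (fib K q m a).card * (Adm K q).card = (Adm K (q * m)).card := by
  obtain ⟨u, hu⟩ := fib_uniform (K := K) m q hq
  intro a ha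
  rw [hu a ha, card_eq_sum_card_fiberwise (s := Adm K (q * m)) (t := Adm K q) (f := fun b => b % q)
    (fun b hb => mod_mem hq hb)]
  have e : ∀ a' ∈ Adm K q, ((Adm K (q * m)).filter (fun b => b % q = a')).card = u :=
    fun a' ha' => hu a' ha'
  rw [sum_congr rfl e, sum_const, smul_eq_mul, mul_comm]

/-- The tuple is admissible. -/
def IsAdm (K : Finset ℕ) : Prop := ∀ l : ℕ, l.Prime → ∃ a, ∀ h ∈ K, ¬ l ∣ a + h

lemma Adm_prime_pos (hK : IsAdm K) {l : ℕ} (hl : l.Prime) : 0 < (Adm K l).card := by
  obtain ⟨a, ha⟩ := hK l hl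
  rw [card_pos]
  refine ⟨a % l, ?_⟩
  rw [mem_Adm]
  exact ⟨Nat.mod_lt _ hl.pos, fun h hh => coprime_mod
    ((Nat.Prime.coprime_iff_not_dvd hl).2 (ha h hh)).symm⟩

lemma card_mul_prime {q l : ℕ} (hq : 0 < q) (hl : l.Prime) :
    (Adm K (q * l)).card = (Adm K q).card * (if l ∣ q then l else (Adm K l).card) := by
  rw [card_eq_sum_card_fiberwise (s := Adm K (q * l)) (t := Adm K q) (f := fun b => b % q)
    (fun b hb => mod_mem hq hb)]
  rw [sum_congr rfl (g := fun _ => if l ∣ q then l else (Adm K l).card), sum_const, smul_eq_mul]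
  intro a ha
  split_ifs with h
  · exact card_fib_dvd hq hl h ha
  · exact card_fib_not_dvd hq hl h ha

lemma card_pos_mul (hK : IsAdm K) (m : ℕ) : ∀ q : ℕ, 0 < q → 0 < m → 0 < (Adm K q).card →
    0 < (Adm K (q * m)).card := by
  induction m using Nat.recOnMul with
  | zero => intro q _ h; omega
  | one => intro q _ _ h; rwa [mul_one]
  | prime l hl =>
    intro q hq _ h
    rw [card_mul_prime hq hl]
    refine Nat.mul_pos h ?_
    split_ifs
    · exact hl.pos
    · exact Adm_prime_pos hK hl
  | mul m₁ m₂ ih1 ih2 =>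
    intro q hq hm h
    have h1 : 0 < m₁ := Nat.pos_of_mul_pos_right hm
    have h2 : 0 < m₂ := Nat.pos_of_mul_pos_left hm
    rw [← mul_assoc]
    exact ih2 _ (Nat.mul_pos hq h1) h2 (ih1 q hq h1 h)

lemma Adm_pos (hK : IsAdm K) {P : ℕ} (hP : 0 < P) : 0 < (Adm K P).card := by
  have := card_pos_mul hK P 1 one_pos hP (by rw [Adm_one]; simp)
  rwa [one_mul] at this

/-- the number of classes of a multiple -/
lemma card_pow {q : ℕ} (hq : 0 < q) (j : ℕ) : (Adm K (q * q ^ j)).card = (Adm K q).card * q ^ j := by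
  have e : ∀ a ∈ Adm K q, (fib K q (q ^ j) a).card = q ^ j := by
    intro a ha
    rw [mem_Adm] at ha
    have e : fib K q (q ^ j) a = (range (q ^ j)).image (fun t => a + q * t) := by
      ext b
      unfold fib
      rw [mem_filter, mem_image]
      constructor
      · rintro ⟨h1, h2⟩
        rw [mem_Adm] at h1
        refine ⟨b / q, ?_, ?_⟩
        · rw [mem_range]; exact Nat.div_lt_of_lt_mul h1.1
        · rw [← h2]; exact Nat.mod_add_div b q
      · rintro ⟨t, ht, rfl⟩
        rw [mem_range] at ht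
        refine ⟨?_, ?_⟩
        · rw [mem_Adm]
          refine ⟨?_, fun h hh => ?_⟩
          · have : q * (t + 1) ≤ q * q ^ j := Nat.mul_le_mul_left _ ht
            have h3 := ha.1
            rw [mul_add] at this; omega
          · have h4 : (a + q * t + h).Coprime q := by
              have e : a + q * t + h = a + h + q * t := by ring
              rw [e]
              exact (Nat.coprime_add_mul_left_left _ _ _).2 (ha.2 h hh)
            exact Nat.Coprime.mul_right h4 (Nat.Coprime.pow_right _ h4)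
        · rw [Nat.add_mul_mod_self_left]; exact Nat.mod_eq_of_lt ha.1
    rw [e, card_image_of_injective, card_range]
    intro x y hxy
    dsimp only at hxy
    exact Nat.eq_of_mul_eq_mul_left hq (by omega)
  rw [card_eq_sum_card_fiberwise (s := Adm K (q * q ^ j)) (t := Adm K q) (f := fun b => b % q)
    (fun b hb => mod_mem hq hb)]
  have e' : ∀ a' ∈ Adm K q, ((Adm K (q * q ^ j)).filter (fun b => b % q = a')).card = q ^ j :=
    fun a' ha' => e a' ha'
  rw [sum_congr rfl e', sum_const, smul_eq_mul]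

/-! ### the upper bound -/

/-- `ν(P) (P / φ(P)) ^ k / P` -/
noncomputable def ff (K : Finset ℕ) (P : ℕ) : ℝ :=
  (Adm K P).card * ((P : ℝ) / P.totient) ^ K.card / P

/-- the local factor -/
noncomputable def gg (K : Finset ℕ) (l : ℕ) : ℝ :=
  if l ≤ K.sup id then ((l : ℝ) / (l - 1)) ^ K.card else 1

lemma gg_one {l : ℕ} (hl : l.Prime) : 1 ≤ gg K l := by
  unfold gg
  split_ifs
  · apply one_le_pow₀
    have h2 : (2 : ℝ) ≤ l := by exact_mod_cast hl.two_le
    rw [le_div_iff₀ (by linarith)]
    linarith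
  · exact le_rfl

lemma card_Adm_large {l : ℕ} (hl : l.Prime) (h : K.sup id < l) : (Adm K l).card ≤ l - K.card := by
  have hlt : ∀ x ∈ K, x < l := fun x hx => lt_of_le_of_lt (le_sup (f := id) hx) h
  have h1 : Adm K l ⊆ range l \ K.image (fun x => (l - x) % l) := by
    intro a ha
    rw [mem_Adm] at ha
    rw [mem_sdiff, mem_range, mem_image]
    refine ⟨ha.1, ?_⟩
    rintro ⟨x, hx, hxa⟩
    have h2 := ha.2 x hx
    have h3 : l ∣ a + x := by
      have h4 := hlt x hx
      rcases Nat.eq_zero_or_pos x with h0 | h0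
      · rw [h0] at hxa ⊢
        rw [Nat.sub_zero, Nat.mod_self] at hxa
        rw [← hxa]; simp
      · rw [Nat.mod_eq_of_lt (by omega)] at hxa
        rw [← hxa, Nat.sub_add_cancel h4.le]
    exact (Nat.Prime.coprime_iff_not_dvd hl).1 h2.symm h3
  refine (card_le_card h1).trans ?_
  rw [card_sdiff_of_subset]
  · rw [card_range, card_image_of_injOn]
    intro x hx y hy hxy
    dsimp only at hxy
    have h4 := hlt x hx
    have h5 := hlt y hy
    rcases Nat.eq_zero_or_pos x with h0 | h0
    · rcases Nat.eq_zero_or_pos y with h0' | h0'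
      · omega
      · rw [h0, Nat.sub_zero, Nat.mod_self, Nat.mod_eq_of_lt (by omega)] at hxy; omega
    · rcases Nat.eq_zero_or_pos y with h0' | h0'
      · rw [h0', Nat.sub_zero, Nat.mod_self, Nat.mod_eq_of_lt (by omega)] at hxy; omega
      · rw [Nat.mod_eq_of_lt (by omega), Nat.mod_eq_of_lt (by omega)] at hxy; omega
  · intro y hy
    rw [mem_image] at hy
    obtain ⟨x, _, rfl⟩ := hy
    exact mem_range.2 (Nat.mod_lt _ hl.pos)

lemma local_le {l : ℕ} (hl : l.Prime) :
    ((Adm K l).card : ℝ) / l * ((l : ℝ) / (l - 1)) ^ K.card ≤ gg K l := by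
  have h2 : (2 : ℝ) ≤ l := by exact_mod_cast hl.two_le
  have h1 : (0 : ℝ) < (l : ℝ) - 1 := by linarith
  unfold gg
  split_ifs with h
  · have h3 : ((Adm K l).card : ℝ) / l ≤ 1 := by
      rw [div_le_one (by linarith)]
      have : (Adm K l).card ≤ l := (card_filter_le _ _).trans (by rw [card_range])
      exact_mod_cast this
    exact mul_le_of_le_one_left (by positivity) h3
  · push Not at h
    have h3 := card_Adm_large hl h
    have hk : K.card ≤ l := by
      have : K ⊆ range l := fun x hx => mem_range.2 (lt_of_le_of_lt (le_sup (f := id) hx) h)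
      simpa using card_le_card this
    have h4 : ((Adm K l).card : ℝ) / l ≤ (1 - 1 / l) ^ K.card := by
      have h5 : ((Adm K l).card : ℝ) ≤ l - K.card := by
        have : ((Adm K l).card : ℝ) ≤ ((l - K.card : ℕ) : ℝ) := by exact_mod_cast h3
        rwa [Nat.cast_sub hk] at this
      have h6 := one_add_mul_le_pow (a := -(1 / (l : ℝ))) (by
        have : 1 / (l : ℝ) ≤ 1 := by rw [div_le_one (by linarith)]; linarith
        linarith) K.card
      calc ((Adm K l).card : ℝ) / l ≤ (l - K.card) / l := by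
            apply div_le_div_of_nonneg_right h5 (by linarith)
        _ = 1 + K.card * -(1 / (l : ℝ)) := by field_simp; ring
        _ ≤ _ := by rw [sub_eq_add_neg]; exact h6
    calc _ ≤ (1 - 1 / (l : ℝ)) ^ K.card * ((l : ℝ) / (l - 1)) ^ K.card := by
          apply mul_le_mul_of_nonneg_right h4 (by positivity)
      _ = 1 := by
          rw [← mul_pow]
          have : (1 - 1 / (l : ℝ)) * ((l : ℝ) / (l - 1)) = 1 := by
            field_simp
          rw [this, one_pow]

/-- the product of the local factors -/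
noncomputable def GG (K : Finset ℕ) (P : ℕ) : ℝ := ∏ l ∈ P.primeFactors, gg K l

lemma GG_pos (P : ℕ) : 0 < GG K P :=
  prod_pos fun l hl => zero_lt_one.trans_le (gg_one (Nat.prime_of_mem_primeFactors hl))

lemma ff_step (m : ℕ) : ∀ q : ℕ, 0 < q → 0 < m → ff K (q * m) * GG K q ≤ ff K q * GG K (q * m) := by
  induction m using Nat.recOnMul with
  | zero => intro q _ h; omega
  | one => intro q _ _; rw [mul_one]
  | prime l hl =>
    intro q hq _
    have hq0 : (0 : ℝ) < q := by exact_mod_cast hq
    have hl0 : (0 : ℝ) < l := by exact_mod_cast hl.pos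
    have ht : (0 : ℝ) < q.totient := by exact_mod_cast Nat.totient_pos.2 hq
    have h2 : (2 : ℝ) ≤ l := by exact_mod_cast hl.two_le
    by_cases hd : l ∣ q
    · have e1 : ff K (q * l) = ff K q := by
        unfold ff
        rw [card_mul_prime hq hl, if_pos hd]
        have : (q * l).totient = q.totient * l := by
          rw [mul_comm q l, Nat.totient_mul_of_prime_of_dvd hl hd, mul_comm]
        rw [this]
        push_cast
        have e : (q : ℝ) * l / (q.totient * l) = q / q.totient := by field_simp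
        rw [e]
        field_simp
      have e2 : GG K (q * l) = GG K q := by
        unfold GG
        rw [Nat.primeFactors_mul hq.ne' hl.ne_zero]
        congr 1
        rw [union_eq_left, hl.primeFactors]
        intro x hx
        rw [mem_singleton] at hx
        rw [hx, Nat.mem_primeFactors]
        exact ⟨hl, hd, hq.ne'⟩
      rw [e1, e2]
    · have e1 : ff K (q * l) = ff K q * (((Adm K l).card : ℝ) / l * ((l : ℝ) / (l - 1)) ^ K.card) := by
        unfold ff
        rw [card_mul_prime hq hl, if_neg hd]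
        have : (q * l).totient = q.totient * (l - 1) := by
          rw [Nat.totient_mul ((Nat.Prime.coprime_iff_not_dvd hl).2 hd).symm, Nat.totient_prime hl]
        rw [this]
        push_cast [Nat.cast_sub hl.one_lt.le]
        have h1 : (l : ℝ) - 1 ≠ 0 := by linarith
        have e : (q : ℝ) * l / (q.totient * (l - 1)) = q / q.totient * (l / (l - 1)) := by
          rw [mul_div_mul_comm]
        rw [e, mul_pow]
        have hA : ∀ x y : ℝ, ((Adm K q).card : ℝ) * (Adm K l).card * (x * y) / (q * l) =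
            (Adm K q).card * x / q * ((Adm K l).card / l * y) := by
          intro x y
          field_simp
        exact hA _ _
      have e2 : GG K (q * l) = GG K q * gg K l := by
        unfold GG
        rw [Nat.primeFactors_mul hq.ne' hl.ne_zero, prod_union, hl.primeFactors, prod_singleton]
        rw [hl.primeFactors, disjoint_singleton_right, Nat.mem_primeFactors]
        rintro ⟨-, h, -⟩
        exact hd h
      rw [e1, e2]
      have h3 := local_le (K := K) hl
      have h4 : 0 ≤ ff K q := by unfold ff; positivity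
      have h5 := GG_pos (K := K) q
      calc _ = ff K q * GG K q * (((Adm K l).card : ℝ) / l * ((l : ℝ) / (l - 1)) ^ K.card) := by ring
        _ ≤ ff K q * GG K q * gg K l := mul_le_mul_of_nonneg_left h3 (by positivity)
        _ = _ := by ring
  | mul m₁ m₂ ih1 ih2 =>
    intro q hq hm
    have h1 : 0 < m₁ := Nat.pos_of_mul_pos_right hm
    have h2 : 0 < m₂ := Nat.pos_of_mul_pos_left hm
    have k1 := ih1 q hq h1
    have k2 := ih2 (q * m₁) (Nat.mul_pos hq h1) h2
    rw [mul_assoc] at k2
    have g1 := GG_pos (K := K) q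
    have g2 := GG_pos (K := K) (q * m₁)
    have g3 := GG_pos (K := K) (q * (m₁ * m₂))
    have e1 := mul_le_mul_of_nonneg_right k2 g1.le
    have e2 := mul_le_mul_of_nonneg_right k1 g3.le
    have : ff K (q * (m₁ * m₂)) * GG K q * GG K (q * m₁) ≤
        ff K q * GG K (q * (m₁ * m₂)) * GG K (q * m₁) := by
      calc _ = ff K (q * (m₁ * m₂)) * GG K (q * m₁) * GG K q := by ring
        _ ≤ _ := e1
        _ = ff K (q * m₁) * GG K q * GG K (q * (m₁ * m₂)) := by ring
        _ ≤ _ := e2
        _ = _ := by ring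
    exact le_of_mul_le_mul_right this g2

lemma prod_one_le (s : Finset ℕ) (f : ℕ → ℝ) (h : ∀ l ∈ s, 1 ≤ f l) : 1 ≤ ∏ l ∈ s, f l := by
  induction s using Finset.induction_on with
  | empty => simp
  | insert a s ha ih =>
    rw [prod_insert ha]
    have h1 := h a (mem_insert_self _ _)
    have h2 := ih fun l hl => h l (mem_insert_of_mem hl)
    nlinarith

lemma prod_mono_set {s t : Finset ℕ} {f : ℕ → ℝ} (hst : s ⊆ t) (h : ∀ l ∈ t, 1 ≤ f l) :
    ∏ l ∈ s, f l ≤ ∏ l ∈ t, f l := by
  rw [← prod_sdiff hst]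
  have h1 := prod_one_le (t \ s) f fun l hl => h l (mem_sdiff.1 hl).1
  have h2 := prod_one_le s f fun l hl => h l (hst hl)
  nlinarith

/-- **The number of the admissible classes** -/
theorem card_le (K : Finset ℕ) : ∃ C : ℝ, 1 ≤ C ∧ ∀ P : ℕ, 0 < P →
    ((Adm K P).card : ℝ) * ((P : ℝ) / P.totient) ^ K.card / P ≤ C := by
  refine ⟨∏ l ∈ (range (K.sup id + 1)).filter Nat.Prime, gg K l, ?_, fun P hP => ?_⟩
  · exact prod_one_le _ _ fun l hl => gg_one (mem_filter.1 hl).2
  · have h1 := ff_step (K := K) P 1 one_pos hP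
    rw [one_mul] at h1
    have e1 : GG K 1 = 1 := by unfold GG; simp
    have e2 : ff K 1 = 1 := by unfold ff; rw [Adm_one]; simp
    rw [e1, e2, mul_one, one_mul] at h1
    refine (le_of_eq rfl).trans (h1.trans ?_)
    unfold GG
    have e3 : ∏ l ∈ P.primeFactors, gg K l =
        ∏ l ∈ P.primeFactors.filter (fun l => l ≤ K.sup id), gg K l := by
      rw [prod_filter]
      refine prod_congr rfl fun l _ => ?_
      unfold gg
      split_ifs <;> rfl
    rw [e3]
    refine prod_mono_set ?_ ?_
    · intro l hl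
      rw [mem_filter] at hl ⊢
      exact ⟨mem_range.2 (by omega), Nat.prime_of_mem_primeFactors hl.1⟩
    · intro l hl
      exact gg_one (mem_filter.1 hl).2

end Pool.Agent.Q13.TU
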