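import Pool.Agent.Q13.TU.Main

/-! # The constants of the prime triples and quadruples (helper13) -/

set_option autoImplicit false

open Finset Filter Topology

namespace Pool.Agent.Q13.TU

lemma f3_pos {n : ℕ} (hn : 5 ≤ n) : 0 < (n : ℝ) ^ 2 * ((n : ℝ) - 3) / ((n : ℝ) - 1) ^ 3 := by
  have h : (5 : ℝ) ≤ n := by exact_mod_cast hn
  have h1 : 0 < (n : ℝ) - 3 := by linarith
  have h2 : 0 < (n : ℝ) - 1 := by linarith
  positivity

lemma f3_le {n : ℕ} (hn : 5 ≤ n) : (n : ℝ) ^ 2 * ((n : ℝ) - 3) / ((n : ℝ) - 1) ^ 3 ≤ 1 := by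
  have h : (5 : ℝ) ≤ n := by exact_mod_cast hn
  have h2 : 0 < (n : ℝ) - 1 := by linarith
  rw [div_le_one (by positivity)]
  nlinarith

lemma f4_pos {n : ℕ} (hn : 5 ≤ n) : 0 < (n : ℝ) ^ 3 * ((n : ℝ) - 4) / ((n : ℝ) - 1) ^ 4 := by
  have h : (5 : ℝ) ≤ n := by exact_mod_cast hn
  have h1 : 0 < (n : ℝ) - 4 := by linarith
  have h2 : 0 < (n : ℝ) - 1 := by linarith
  positivity

lemma f4_le {n : ℕ} (hn : 5 ≤ n) : (n : ℝ) ^ 3 * ((n : ℝ) - 4) / ((n : ℝ) - 1) ^ 4 ≤ 1 := by
  have h : (5 : ℝ) ≤ n := by exact_mod_cast hn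
  have h2 : 0 < (n : ℝ) - 1 := by linarith
  rw [div_le_one (by positivity)]
  nlinarith [sq_nonneg ((n : ℝ) - 1), mul_pos h2 h2]

/-- the telescoping products -/
lemma prod3 (m : ℕ) : ∏ n ∈ range m, (((n + 5 : ℕ) : ℝ) ^ 2 * (((n + 5 : ℕ) : ℝ) - 3) /
    (((n + 5 : ℕ) : ℝ) - 1) ^ 3) = 3 / 8 * (((m : ℝ) + 4) ^ 2 / (((m : ℝ) + 3) * ((m : ℝ) + 2))) := by
  induction m with
  | zero => norm_num
  | succ m ih =>
    rw [prod_range_succ, ih]
    push_cast
    have h1 : (m : ℝ) + 3 ≠ 0 := by positivity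
    have h2 : (m : ℝ) + 2 ≠ 0 := by positivity
    have h3 : (m : ℝ) + 5 - 1 ≠ 0 := by
      have : (0 : ℝ) ≤ m := by positivity
      linarith
    have h4 : (m : ℝ) + 1 + 3 ≠ 0 := by positivity
    have h5 : (m : ℝ) + 1 + 2 ≠ 0 := by positivity
    field_simp
    ring

lemma prod4 (m : ℕ) : ∏ n ∈ range m, (((n + 5 : ℕ) : ℝ) ^ 3 * (((n + 5 : ℕ) : ℝ) - 4) /
    (((n + 5 : ℕ) : ℝ) - 1) ^ 4) = 3 / 32 * (((m : ℝ) + 4) ^ 3 /
      (((m : ℝ) + 3) * ((m : ℝ) + 2) * ((m : ℝ) + 1))) := by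
  induction m with
  | zero => norm_num
  | succ m ih =>
    rw [prod_range_succ, ih]
    push_cast
    have h0 : (m : ℝ) + 1 ≠ 0 := by positivity
    have h1 : (m : ℝ) + 3 ≠ 0 := by positivity
    have h2 : (m : ℝ) + 2 ≠ 0 := by positivity
    have h3 : (m : ℝ) + 5 - 1 ≠ 0 := by
      have : (0 : ℝ) ≤ m := by positivity
      linarith
    have h4 : (m : ℝ) + 1 + 3 ≠ 0 := by positivity
    have h5 : (m : ℝ) + 1 + 2 ≠ 0 := by positivity
    have h6 : (m : ℝ) + 1 + 1 ≠ 0 := by positivity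
    field_simp
    ring

/-- a product over the primes above `3` of factors in `(0, 1]` whose products over all integers are
bounded below has a positive limit -/
lemma lim_pos {f : ℕ → ℝ} {c : ℝ} (hc : 0 < c) (h0 : ∀ n, 5 ≤ n → 0 < f n) (h1 : ∀ n, 5 ≤ n → f n ≤ 1)
    (hp : ∀ m : ℕ, c ≤ ∏ n ∈ range m, f (n + 5)) :
    ∃ D : ℝ, c ≤ D ∧ Tendsto (fun N : ℕ => ∏ p ∈ (range N).filter (fun p => p.Prime ∧ 3 < p), f p)
      atTop (𝓝 D) := by
  have h5 : ∀ p ∈ {p : ℕ | p.Prime ∧ 3 < p}, 5 ≤ p := by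
    rintro p ⟨hp, h⟩
    rcases Nat.lt_or_ge p 5 with h' | h'
    · have : p = 4 := by omega
      rw [this] at hp
      exact absurd hp (by norm_num)
    · exact h'
  have hnn : ∀ N, 0 ≤ ∏ p ∈ (range N).filter (fun p => p.Prime ∧ 3 < p), f p :=
    fun N => prod_nonneg fun p hp => (h0 p (h5 p (mem_filter.1 hp).2)).le
  have hanti : Antitone (fun N : ℕ => ∏ p ∈ (range N).filter (fun p => p.Prime ∧ 3 < p), f p) := by
    refine antitone_nat_of_succ_le fun N => ?_
    rw [range_add_one, filter_insert]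
    split_ifs with h
    · rw [prod_insert (by simp)]
      exact mul_le_of_le_one_left (hnn N) (h1 N (h5 N h))
    · exact le_rfl
  have hlow : ∀ N, c ≤ ∏ p ∈ (range N).filter (fun p => p.Prime ∧ 3 < p), f p := by
    intro N
    refine (hp N).trans ?_
    have e : ∏ n ∈ range N, f (n + 5) = ∏ n ∈ (range N).map (addRightEmbedding 5), f n := by
      rw [prod_map]; rfl
    rw [e]
    have hsub : (range N).filter (fun p => p.Prime ∧ 3 < p) ⊆ (range N).map (addRightEmbedding 5) := by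
      intro p hp
      rw [mem_filter, mem_range] at hp
      have := h5 p hp.2
      rw [Finset.mem_map]
      exact ⟨p - 5, mem_range.2 (by omega), by simp; omega⟩
    rw [← prod_sdiff hsub]
    refine mul_le_of_le_one_left (hnn N) ?_
    have hm : ∀ n ∈ (range N).map (addRightEmbedding 5) \ (range N).filter
        (fun p => p.Prime ∧ 3 < p), 5 ≤ n := by
      intro n hn
      rw [Finset.mem_sdiff, Finset.mem_map] at hn
      obtain ⟨⟨x, _, rfl⟩, _⟩ := hn
      simp
    exact prod_le_one (fun n hn => (h0 n (hm n hn)).le) fun n hn => h1 n (hm n hn)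
  have hlim := tendsto_atTop_ciInf hanti ⟨c, by rintro _ ⟨N, rfl⟩; exact hlow N⟩
  exact ⟨_, ge_of_tendsto' hlim hlow, hlim⟩

theorem lim3 : ∃ D : ℝ, 0 < D ∧ Tendsto (fun N : ℕ => (9 / 2 : ℝ) *
    ∏ p ∈ (range N).filter (fun p => p.Prime ∧ 3 < p),
      ((p : ℝ) ^ 2 * ((p : ℝ) - 3) / ((p : ℝ) - 1) ^ 3)) atTop (𝓝 D) := by
  obtain ⟨D, hD, h⟩ := lim_pos (f := fun n : ℕ => (n : ℝ) ^ 2 * ((n : ℝ) - 3) / ((n : ℝ) - 1) ^ 3)
    (c := 3 / 8) (by norm_num) (fun n hn => f3_pos hn) (fun n hn => f3_le hn) (fun m => by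
      have h1 := prod3 m
      rw [h1]
      have h2 : (1 : ℝ) ≤ ((m : ℝ) + 4) ^ 2 / (((m : ℝ) + 3) * ((m : ℝ) + 2)) := by
        have : (0 : ℝ) ≤ m := by positivity
        rw [le_div_iff₀ (by positivity)]
        nlinarith
      linarith)
  exact ⟨9 / 2 * D, by linarith, h.const_mul _⟩

theorem lim4 : ∃ D : ℝ, 0 < D ∧ Tendsto (fun N : ℕ =>
    ∏ p ∈ (range N).filter (fun p => p.Prime ∧ 3 < p),
      ((p : ℝ) ^ 3 * ((p : ℝ) - 4) / ((p : ℝ) - 1) ^ 4)) atTop (𝓝 D) := by
  obtain ⟨D, hD, h⟩ := lim_pos (f := fun n : ℕ => (n : ℝ) ^ 3 * ((n : ℝ) - 4) / ((n : ℝ) - 1) ^ 4)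
    (c := 3 / 32) (by norm_num) (fun n hn => f4_pos hn) (fun n hn => f4_le hn) (fun m => by
      have h1 := prod4 m
      rw [h1]
      have h2 : (1 : ℝ) ≤ ((m : ℝ) + 4) ^ 3 / (((m : ℝ) + 3) * ((m : ℝ) + 2) * ((m : ℝ) + 1)) := by
        have : (0 : ℝ) ≤ m := by positivity
        rw [le_div_iff₀ (by positivity)]
        nlinarith [sq_nonneg (m : ℝ)]
      linarith)
  exact ⟨D, by linarith, h⟩

/-! ### the shapes -/

lemma not_dvd_prime {l p : ℕ} (hl : l.Prime) (hp : p.Prime) (h : l ≠ p) : ¬ l ∣ p :=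
  fun hd => h ((Nat.prime_dvd_prime_iff_eq hl hp).1 hd)

lemma adm026 : IsAdm {0, 2, 6} := by
  intro l hl
  have p3 : Nat.Prime 3 := by norm_num
  have p5 : Nat.Prime 5 := by norm_num
  have p7 : Nat.Prime 7 := by norm_num
  have p11 : Nat.Prime 11 := by norm_num
  have p13 : Nat.Prime 13 := by norm_num
  have p17 : Nat.Prime 17 := by norm_num
  by_cases h1 : l ≤ 11
  · by_cases h2 : l ≤ 3
    · refine ⟨5, ?_⟩
      simp only [forall_mem_insert, mem_singleton, forall_eq]
      exact ⟨not_dvd_prime hl p5 (by omega), not_dvd_prime hl p7 (by omega),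
        not_dvd_prime hl p11 (by omega)⟩
    · by_cases h3 : l = 11
      · refine ⟨1, ?_⟩
        subst h3
        simp only [forall_mem_insert, mem_singleton, forall_eq]
        decide
      · refine ⟨11, ?_⟩
        simp only [forall_mem_insert, mem_singleton, forall_eq]
        exact ⟨not_dvd_prime hl p11 (by omega), not_dvd_prime hl p13 (by omega),
          not_dvd_prime hl p17 (by omega)⟩
  · refine ⟨5, ?_⟩
    simp only [forall_mem_insert, mem_singleton, forall_eq]
    exact ⟨not_dvd_prime hl p5 (by omega), not_dvd_prime hl p7 (by omega),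
      not_dvd_prime hl p11 (by omega)⟩

lemma adm046 : IsAdm {0, 4, 6} := by
  intro l hl
  have p7 : Nat.Prime 7 := by norm_num
  have p11 : Nat.Prime 11 := by norm_num
  have p13 : Nat.Prime 13 := by norm_num
  have p17 : Nat.Prime 17 := by norm_num
  have p19 : Nat.Prime 19 := by norm_num
  by_cases h1 : l ≤ 11
  · refine ⟨13, ?_⟩
    simp only [forall_mem_insert, mem_singleton, forall_eq]
    exact ⟨not_dvd_prime hl p13 (by omega), not_dvd_prime hl p17 (by omega),
      not_dvd_prime hl p19 (by omega)⟩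
  · by_cases h3 : l = 13
    · refine ⟨1, ?_⟩
      subst h3
      simp only [forall_mem_insert, mem_singleton, forall_eq]
      decide
    · refine ⟨7, ?_⟩
      simp only [forall_mem_insert, mem_singleton, forall_eq]
      exact ⟨not_dvd_prime hl p7 (by omega), not_dvd_prime hl p11 (by omega),
        not_dvd_prime hl p13 (by omega)⟩

lemma adm0268 : IsAdm {0, 2, 6, 8} := by
  intro l hl
  have p5 : Nat.Prime 5 := by norm_num
  have p7 : Nat.Prime 7 := by norm_num
  have p11 : Nat.Prime 11 := by norm_num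
  have p13 : Nat.Prime 13 := by norm_num
  have p17 : Nat.Prime 17 := by norm_num
  have p19 : Nat.Prime 19 := by norm_num
  have p101 : Nat.Prime 101 := by norm_num
  have p103 : Nat.Prime 103 := by norm_num
  have p107 : Nat.Prime 107 := by norm_num
  have p109 : Nat.Prime 109 := by norm_num
  by_cases h1 : l ≤ 7
  · refine ⟨11, ?_⟩
    simp only [forall_mem_insert, mem_singleton, forall_eq]
    exact ⟨not_dvd_prime hl p11 (by omega), not_dvd_prime hl p13 (by omega),
      not_dvd_prime hl p17 (by omega), not_dvd_prime hl p19 (by omega)⟩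
  · by_cases h3 : l ≤ 13
    · refine ⟨101, ?_⟩
      simp only [forall_mem_insert, mem_singleton, forall_eq]
      exact ⟨not_dvd_prime hl p101 (by omega), not_dvd_prime hl p103 (by omega),
        not_dvd_prime hl p107 (by omega), not_dvd_prime hl p109 (by omega)⟩
    · refine ⟨5, ?_⟩
      simp only [forall_mem_insert, mem_singleton, forall_eq]
      exact ⟨not_dvd_prime hl p5 (by omega), not_dvd_prime hl p7 (by omega),
        not_dvd_prime hl p11 (by omega), not_dvd_prime hl p13 (by omega)⟩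

lemma adm04610 : IsAdm {0, 4, 6, 10} := by
  intro l hl
  have p7 : Nat.Prime 7 := by norm_num
  have p11 : Nat.Prime 11 := by norm_num
  have p13 : Nat.Prime 13 := by norm_num
  have p17 : Nat.Prime 17 := by norm_num
  have p19 : Nat.Prime 19 := by norm_num
  have p23 : Nat.Prime 23 := by norm_num
  have p37 : Nat.Prime 37 := by norm_num
  have p41 : Nat.Prime 41 := by norm_num
  have p43 : Nat.Prime 43 := by norm_num
  have p47 : Nat.Prime 47 := by norm_num
  by_cases h1 : l ≤ 17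
  · refine ⟨37, ?_⟩
    simp only [forall_mem_insert, mem_singleton, forall_eq]
    exact ⟨not_dvd_prime hl p37 (by omega), not_dvd_prime hl p41 (by omega),
      not_dvd_prime hl p43 (by omega), not_dvd_prime hl p47 (by omega)⟩
  · refine ⟨7, ?_⟩
    simp only [forall_mem_insert, mem_singleton, forall_eq]
    exact ⟨not_dvd_prime hl p7 (by omega), not_dvd_prime hl p11 (by omega),
      not_dvd_prime hl p13 (by omega), not_dvd_prime hl p17 (by omega)⟩

/-- an asymptotic equality in the form of a limit -/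
lemma equiv_iff {u : ℕ → ℝ} {D : ℝ} (hD : 0 < D) (k : ℕ) :
    Asymptotics.IsEquivalent atTop u (fun n : ℕ => D * (n : ℝ) / Real.log (n : ℝ) ^ k) ↔
      Tendsto (fun n : ℕ => u n * Real.log (n : ℝ) ^ k / n) atTop (𝓝 D) := by
  have hpos : ∀ᶠ n : ℕ in atTop, 0 < D * (n : ℝ) / Real.log (n : ℝ) ^ k := by
    filter_upwards [eventually_ge_atTop 3] with n hn
    have h3 : (3 : ℝ) ≤ n := by exact_mod_cast hn
    have : 0 < Real.log n := Real.log_pos (by linarith)
    positivity
  rw [Asymptotics.isEquivalent_iff_tendsto_one (hpos.mono fun n hn => hn.ne')]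
  have e : (fun n : ℕ => u n * Real.log (n : ℝ) ^ k / n) =ᶠ[atTop]
      fun n : ℕ => D * ((u / fun n : ℕ => D * (n : ℝ) / Real.log (n : ℝ) ^ k) n) := by
    filter_upwards [eventually_ge_atTop 3] with n hn
    have h3 : (3 : ℝ) ≤ n := by exact_mod_cast hn
    have h4 : 0 < Real.log n := Real.log_pos (by linarith)
    simp only [Pi.div_apply]
    field_simp
  rw [tendsto_congr' e]
  constructor
  · intro h
    have := h.const_mul D
    rwa [mul_one] at this
  · intro h
    have := h.const_mul D⁻¹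
    rw [inv_mul_cancel₀ hD.ne'] at this
    refine this.congr fun n => ?_
    rw [← mul_assoc, inv_mul_cancel₀ hD.ne', one_mul]

lemma right_one (K : Finset ℕ) (D : ℝ) : Right K D 1 {0} ↔
    Tendsto (fun N : ℕ => (((range (N + 1)).filter (fun n => ∀ h ∈ K, (n + h).Prime)).card : ℝ) *
      Real.log N ^ K.card / N) atTop (𝓝 D) := by
  unfold Right
  rw [Adm_one]
  simp only [card_singleton, Nat.cast_one, mul_one, div_one]
  have e : ∀ N, cnt K 1 {0} N = ((range (N + 1)).filter (fun n => ∀ h ∈ K, (n + h).Prime)).card := by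
    intro N
    unfold cnt
    congr 1
    ext n
    simp only [mem_filter, mem_singleton, Nat.mod_one, and_true]
  simp_rw [e]

end Pool.Agent.Q13.TU
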