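import Pool.Agent.Q13.TU.Adm
import Pool.Agent.Q197.PS.K
import Pool.Agent.Q197.PS.V

/-! # Prime tuples in random unions of residue classes (helper13) -/

set_option autoImplicit false

open Finset Filter Topology

namespace Pool.Agent.Q13.TU

/-- The number of `n ≤ N` such that all `n + h`, `h ∈ K`, are primes and the class of `n` modulo `P`
is in `A`. -/
def cnt (K : Finset ℕ) (P : ℕ) (A : Finset ℕ) (N : ℕ) : ℕ :=
  ((range (N + 1)).filter (fun n => (∀ h ∈ K, (n + h).Prime) ∧ n % P ∈ A)).card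

/-- The number of the tuples in the union `A` has the expected asymptotics, the number of all tuples
being asymptotic to `D N / log ^ k N`. -/
def Right (K : Finset ℕ) (D : ℝ) (P : ℕ) (A : Finset ℕ) : Prop :=
  Tendsto (fun N : ℕ => (cnt K P A N : ℝ) * Real.log N ^ K.card / N) atTop
    (𝓝 (D * A.card / (Adm K P).card))

open Classical in
/-- The number of the sets `A` of admissible classes with the expected asymptotics. -/
noncomputable def nR (K : Finset ℕ) (D : ℝ) (P : ℕ) : ℕ :=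
  ((Adm K P).powerset.filter (fun A => Right K D P A)).card

variable {K : Finset ℕ}

/-- the deviations -/
noncomputable def dev (K : Finset ℕ) (D : ℝ) (P N a : ℕ) : ℝ :=
  (cnt K P {a} N : ℝ) * Real.log N ^ K.card / N - D / (Adm K P).card

lemma cnt_sum (K : Finset ℕ) (P : ℕ) (A : Finset ℕ) (N : ℕ) :
    cnt K P A N = ∑ a ∈ A, cnt K P {a} N := by
  unfold cnt
  rw [card_eq_sum_card_fiberwise (t := A) (f := fun n => n % P)
    (fun n hn => (mem_filter.1 hn).2.2)]
  refine sum_congr rfl fun a ha => ?_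
  congr 1
  ext n
  simp only [mem_filter, mem_singleton]
  constructor
  · rintro ⟨⟨h1, h2, _⟩, h4⟩; exact ⟨h1, h2, h4⟩
  · rintro ⟨h1, h2, h4⟩; exact ⟨⟨h1, h2, by rw [h4]; exact ha⟩, h4⟩

lemma sum_dev (K : Finset ℕ) (D : ℝ) (P N : ℕ) (A : Finset ℕ) :
    ∑ a ∈ A, dev K D P N a = (cnt K P A N : ℝ) * Real.log N ^ K.card / N -
      D * A.card / (Adm K P).card := by
  unfold dev
  rw [sum_sub_distrib, cnt_sum K P A, sum_const, nsmul_eq_mul]
  push_cast
  rw [sum_mul, sum_div]
  ring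

lemma right_iff (K : Finset ℕ) (D : ℝ) (P : ℕ) (A : Finset ℕ) :
    Right K D P A ↔ Tendsto (fun N => ∑ a ∈ A, dev K D P N a - 0) atTop (𝓝 0) := by
  unfold Right
  simp_rw [sum_dev, sub_zero]
  exact (tendsto_sub_nhds_zero_iff).symm

/-! ### the class bound -/

lemma log_pow_div (k : ℕ) : Tendsto (fun N : ℕ => Real.log N ^ k / N) atTop (𝓝 0) := by
  have h1 := (Real.isLittleO_pow_log_id_atTop (n := k)).tendsto_div_nhds_zero
  exact h1.comp tendsto_natCast_atTop_atTop

lemma sqrt_log_pow_div (k : ℕ) :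
    Tendsto (fun N : ℕ => ((Nat.sqrt N : ℝ) + 1) * Real.log N ^ k / N) atTop (𝓝 0) := by
  have h1 : Tendsto (fun x : ℝ => Real.log x ^ k / x) atTop (𝓝 0) :=
    (Real.isLittleO_pow_log_id_atTop (n := k)).tendsto_div_nhds_zero
  have h2 : Tendsto (fun N : ℕ => √(N : ℝ)) atTop atTop :=
    (Real.tendsto_sqrt_atTop).comp tendsto_natCast_atTop_atTop
  have h3 := (h1.comp h2).const_mul (2 ^ k)
  rw [mul_zero] at h3
  have h4 := h3.add (log_pow_div k)
  rw [add_zero] at h4
  refine squeeze_zero' ?_ ?_ h4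
  · filter_upwards [eventually_ge_atTop 1] with N hN
    have : 0 ≤ Real.log N := Real.log_natCast_nonneg N
    positivity
  · filter_upwards [eventually_ge_atTop 1] with N hN
    have hN0 : (0 : ℝ) < N := by exact_mod_cast hN
    have hl : 0 ≤ Real.log N := Real.log_natCast_nonneg N
    have hs : (Nat.sqrt N : ℝ) ≤ √N := Real.nat_sqrt_le_real_sqrt
    have hs0 : 0 < √(N : ℝ) := Real.sqrt_pos.2 hN0
    have e1 : Real.log √(N : ℝ) = Real.log N / 2 := by rw [Real.log_sqrt hN0.le]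
    have e2 : 2 ^ k * (Real.log √(N : ℝ) ^ k / √N) = √N * Real.log N ^ k / N := by
      rw [e1, div_pow]
      have e3 : (N : ℝ) = √N * √N := (Real.mul_self_sqrt hN0.le).symm
      rw [mul_div_assoc', mul_div_cancel₀ _ (by positivity : (2 : ℝ) ^ k ≠ 0)]
      rw [div_eq_div_iff hs0.ne' hN0.ne']
      nth_rewrite 2 [e3]
      ring
    show ((Nat.sqrt N : ℝ) + 1) * Real.log N ^ k / N ≤
      2 ^ k * (Real.log √(N : ℝ) ^ k / √N) + Real.log N ^ k / N
    rw [e2, ← add_div]
    apply div_le_div_of_nonneg_right _ hN0.le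
    have : 0 ≤ Real.log N ^ k := by positivity
    nlinarith

lemma cnt_le (K : Finset ℕ) (P a N : ℕ) (hN : 2 ≤ N) :
    (cnt K P {a} N : ℝ) * Real.log N ^ K.card ≤ ((Nat.sqrt N : ℝ) + 1) * Real.log N ^ K.card +
      2 ^ K.card * ∑ n ∈ (Icc 1 N).filter (fun n => (n + 0) % P = a),
        ∏ h ∈ K, ArithmeticFunction.vonMangoldt (n + h) := by
  have hNr : (2 : ℝ) ≤ N := by exact_mod_cast hN
  have hlog : 0 < Real.log N := Real.log_pos (by linarith)
  obtain ⟨S, hS⟩ : ∃ S : Finset ℕ, S = (range (N + 1)).filter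
    (fun n => (∀ h ∈ K, (n + h).Prime) ∧ n % P ∈ ({a} : Finset ℕ)) := ⟨_, rfl⟩
  have h1 : S.card ≤ (Nat.sqrt N + 1) + (S.filter (fun n => Nat.sqrt N < n)).card := by
    rw [← card_filter_add_card_filter_not (s := S) (fun n => Nat.sqrt N < n), add_comm]
    apply Nat.add_le_add_right
    have : S.filter (fun n => ¬ Nat.sqrt N < n) ⊆ range (Nat.sqrt N + 1) := by
      intro n hn
      rw [mem_filter] at hn
      exact mem_range.2 (by omega)
    simpa using card_le_card this
  have hΛ : ∀ n, 0 ≤ ∏ h ∈ K, ArithmeticFunction.vonMangoldt (n + h) :=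
    fun n => prod_nonneg fun _ _ => ArithmeticFunction.vonMangoldt_nonneg
  have h2 : ((S.filter (fun n => Nat.sqrt N < n)).card : ℝ) * (Real.log N / 2) ^ K.card ≤
      ∑ n ∈ (Icc 1 N).filter (fun n => (n + 0) % P = a),
        ∏ h ∈ K, ArithmeticFunction.vonMangoldt (n + h) := by
    rw [← nsmul_eq_mul, ← sum_const]
    refine (sum_le_sum (fun n hn => ?_)).trans (sum_le_sum_of_subset_of_nonneg
      (s := S.filter (fun n => Nat.sqrt N < n))
      (f := fun n => ∏ h ∈ K, ArithmeticFunction.vonMangoldt (n + h)) ?_ fun n _ _ => hΛ n)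
    · rw [mem_filter, hS, mem_filter] at hn
      obtain ⟨⟨h3, h4, h5⟩, h6⟩ := hn
      have hn1 : 1 ≤ n := by omega
      have hlogn : Real.log N / 2 ≤ Real.log n := by
        have h7 : N < n * n := Nat.sqrt_lt.1 h6
        have h8 : (N : ℝ) ≤ (n : ℝ) ^ 2 := by
          have : (N : ℝ) < n * n := by exact_mod_cast h7
          nlinarith
        have h9 := Real.log_le_log (by linarith) h8
        rw [Real.log_pow] at h9
        push_cast at h9
        linarith
      rw [← prod_const]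
      refine prod_le_prod (fun _ _ => by positivity) fun h hh => ?_
      rw [ArithmeticFunction.vonMangoldt_apply_prime (h4 h hh)]
      refine hlogn.trans (Real.log_le_log (by exact_mod_cast hn1) ?_)
      push_cast
      have : (0 : ℝ) ≤ h := by positivity
      linarith
    · intro n hn
      rw [mem_filter, hS, mem_filter, mem_range, mem_singleton] at hn
      rw [mem_filter, mem_Icc]
      refine ⟨⟨by omega, by omega⟩, ?_⟩
      rw [add_zero]; exact hn.1.2.2
  have h3 : ((cnt K P {a} N : ℕ) : ℝ) ≤ ((Nat.sqrt N : ℝ) + 1) +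
      ((S.filter (fun n => Nat.sqrt N < n)).card : ℝ) := by
    have : cnt K P {a} N = S.card := by rw [hS]; rfl
    rw [this]
    exact_mod_cast h1
  have hp : 0 ≤ Real.log N ^ K.card := by positivity
  have h4 := mul_le_mul_of_nonneg_right h3 hp
  have h5 := mul_le_mul_of_nonneg_left h2 (by positivity : (0 : ℝ) ≤ 2 ^ K.card)
  have e : (2 : ℝ) ^ K.card * (((S.filter (fun n => Nat.sqrt N < n)).card : ℝ) *
      (Real.log N / 2) ^ K.card) = (S.filter (fun n => Nat.sqrt N < n)).card *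
      Real.log N ^ K.card := by
    rw [div_pow]
    field_simp
  rw [e] at h5
  linarith

/-- **The class bound** -/
theorem dev_bound (K : Finset ℕ) (D : ℝ) : ∃ B : ℝ, 1 ≤ B ∧ ∀ P : ℕ, 0 < P →
    ∀ᶠ N : ℕ in atTop, ∀ a ∈ Adm K P, |dev K D P N a| ≤ B / (Adm K P).card := by
  obtain ⟨C, hC, hcl⟩ := Q197.PS.class_bound K
  obtain ⟨C', hC', hcard⟩ := card_le K
  refine ⟨2 ^ K.card * (C * C') + 1 + |D|, ?_, fun P hP => ?_⟩
  · have : (0 : ℝ) ≤ 2 ^ K.card * (C * C') := by positivity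
    have := abs_nonneg D
    linarith
  have h1 := hcl P hP 0 (fun n => ∏ h ∈ K, ArithmeticFunction.vonMangoldt (n + h)) (fun n => by
    rw [abs_of_nonneg]
    exact prod_nonneg fun _ _ => ArithmeticFunction.vonMangoldt_nonneg)
  rcases Nat.eq_zero_or_pos (Adm K P).card with h0 | h0
  · refine Eventually.of_forall fun N a ha => ?_
    rw [card_eq_zero] at h0
    rw [h0] at ha
    exact absurd ha (notMem_empty _)
  have hν : (0 : ℝ) < (Adm K P).card := by exact_mod_cast h0
  have hPr : (0 : ℝ) < P := by exact_mod_cast hP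
  have h2 := (sqrt_log_pow_div K.card).eventually (gt_mem_nhds (by positivity :
    (0 : ℝ) < 1 / (Adm K P).card))
  filter_upwards [h1, h2, eventually_ge_atTop 2] with N h3 h4 hN a ha
  have hNr : (2 : ℝ) ≤ N := by exact_mod_cast hN
  have hN0 : (0 : ℝ) < N := by linarith
  have h5 := cnt_le K P a N hN
  have h6 := (le_abs_self _).trans (h3 a)
  unfold Q197.PS.clF at h6
  have h7 : (cnt K P {a} N : ℝ) * Real.log N ^ K.card / N ≤ (2 ^ K.card * (C * C') + 1) /
      (Adm K P).card := by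
    have h8 : (cnt K P {a} N : ℝ) * Real.log N ^ K.card / N ≤
        ((Nat.sqrt N : ℝ) + 1) * Real.log N ^ K.card / N + 2 ^ K.card *
        ((∑ n ∈ (Icc 1 N).filter (fun n => (n + 0) % P = a),
        ∏ h ∈ K, ArithmeticFunction.vonMangoldt (n + h)) / N) := by
      rw [mul_div_assoc', ← add_div]
      exact div_le_div_of_nonneg_right h5 hN0.le
    have h9 : C * ((P : ℝ) / P.totient) ^ K.card / P ≤ C * C' / (Adm K P).card := by
      rw [mul_div_assoc, mul_div_assoc]
      apply mul_le_mul_of_nonneg_left _ (by linarith)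
      rw [le_div_iff₀ hν]
      calc ((P : ℝ) / P.totient) ^ K.card / P * (Adm K P).card =
            (Adm K P).card * ((P : ℝ) / P.totient) ^ K.card / P := by ring
        _ ≤ C' := hcard P hP
    calc _ ≤ _ := h8
      _ ≤ 1 / (Adm K P).card + 2 ^ K.card * (C * C' / (Adm K P).card) := by
          refine add_le_add h4.le (mul_le_mul_of_nonneg_left (h6.trans h9) (by positivity))
      _ = _ := by ring
  have h8 : 0 ≤ (cnt K P {a} N : ℝ) * Real.log N ^ K.card / N := by
    have : 0 ≤ Real.log N := Real.log_natCast_nonneg N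
    positivity
  unfold dev
  refine (abs_sub _ _).trans ?_
  rw [abs_of_nonneg h8, abs_div, abs_of_pos hν]
  calc _ ≤ (2 ^ K.card * (C * C') + 1) / (Adm K P).card + |D| / (Adm K P).card :=
        add_le_add h7 le_rfl
    _ = _ := by ring

/-! ### lifting -/

/-- the classes modulo `P` above those of `B` -/
def lft (K : Finset ℕ) (q P : ℕ) (B : Finset ℕ) : Finset ℕ := (Adm K P).filter (fun b => b % q ∈ B)

lemma card_lft {q m : ℕ} (hq : 0 < q) {B : Finset ℕ} (hB : B ⊆ Adm K q) :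
    (lft K q (q * m) B).card * (Adm K q).card = B.card * (Adm K (q * m)).card := by
  unfold lft
  rw [card_eq_sum_card_fiberwise (s := (Adm K (q * m)).filter (fun b => b % q ∈ B)) (t := B)
    (f := fun b => b % q) (fun b hb => (mem_filter.1 hb).2), sum_mul]
  have e : ∀ a ∈ B, (((Adm K (q * m)).filter (fun b => b % q ∈ B)).filter
      (fun b => b % q = a)).card * (Adm K q).card = (Adm K (q * m)).card := by
    intro a ha
    rw [← fib_card (m := m) hq a (hB ha)]
    congr 2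
    ext b
    unfold fib
    rw [mem_filter, mem_filter, mem_filter]
    constructor
    · rintro ⟨⟨h1, h2⟩, h3⟩; exact ⟨h1, h3⟩
    · rintro ⟨h1, h3⟩; exact ⟨⟨h1, by rw [h3]; exact ha⟩, h3⟩
  rw [sum_congr rfl e, sum_const, smul_eq_mul]

lemma cnt_lft_le {q m : ℕ} (B : Finset ℕ) (N : ℕ) :
    cnt K (q * m) (lft K q (q * m) B) N ≤ cnt K q B N := by
  unfold cnt
  refine card_le_card fun n hn => ?_
  rw [mem_filter] at hn ⊢
  refine ⟨hn.1, hn.2.1, ?_⟩
  have h := hn.2.2
  unfold lft at h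
  rw [mem_filter, Nat.mod_mod_of_dvd _ (Dvd.intro _ rfl)] at h
  exact h.2

lemma cnt_le_lft {q m : ℕ} (hq : 0 < q) (hm : 0 < m) (B : Finset ℕ) (N : ℕ) :
    cnt K q B N ≤ cnt K (q * m) (lft K q (q * m) B) N + (q * m + 1) := by
  unfold cnt
  have hP : 0 < q * m := Nat.mul_pos hq hm
  have : (range (N + 1)).filter (fun n => (∀ h ∈ K, (n + h).Prime) ∧ n % q ∈ B) ⊆
      (range (N + 1)).filter (fun n => (∀ h ∈ K, (n + h).Prime) ∧
        n % (q * m) ∈ lft K q (q * m) B) ∪ range (q * m + 1) := by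
    intro n hn
    rw [mem_filter] at hn
    rw [mem_union, mem_filter]
    obtain ⟨h1, h2, h3⟩ := hn
    by_cases h4 : q * m < n
    · left
      refine ⟨h1, h2, ?_⟩
      unfold lft
      rw [mem_filter, mem_Adm]
      refine ⟨⟨Nat.mod_lt _ hP, fun h hh => coprime_mod ?_⟩, ?_⟩
      · refine (Nat.Prime.coprime_iff_not_dvd (h2 h hh)).2 fun hd => ?_
        have := Nat.le_of_dvd hP hd
        omega
      · rw [Nat.mod_mod_of_dvd _ (Dvd.intro _ rfl)]; exact h3
    · right; rw [mem_range]; omega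
  refine (card_le_card this).trans ((card_union_le _ _).trans ?_)
  rw [card_range]

/-- if a union `B` modulo `q` fails, the deviations modulo every multiple of `q` are frequently
large -/
lemma frequently_large (hK : IsAdm K) {D : ℝ} {q : ℕ} (hq : 0 < q) {B : Finset ℕ}
    (hB : B ⊆ Adm K q) (h : ¬ Right K D q B) : ∃ c0 : ℝ, 0 < c0 ∧ ∀ m : ℕ, 0 < m →
      ∃ᶠ N : ℕ in atTop, c0 ≤ ∑ a ∈ Adm K (q * m), |dev K D (q * m) N a| := by
  rw [right_iff] at h
  simp only [sub_zero] at h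
  rw [Metric.tendsto_atTop] at h
  push Not at h
  obtain ⟨ε, hε, h1⟩ := h
  refine ⟨ε / 2, by positivity, fun m hm => ?_⟩
  have hP : 0 < q * m := Nat.mul_pos hq hm
  have hν : (0 : ℝ) < (Adm K q).card := by exact_mod_cast Adm_pos hK hq
  have hν' : (0 : ℝ) < (Adm K (q * m)).card := by exact_mod_cast Adm_pos hK hP
  have h2 : ∃ᶠ N : ℕ in atTop, ε ≤ |∑ a ∈ B, dev K D q N a| := by
    rw [frequently_atTop]
    intro N₀
    obtain ⟨N, hN, h3⟩ := h1 N₀
    refine ⟨N, hN, ?_⟩
    rwa [Real.dist_eq, sub_zero] at h3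
  have h3 := (log_pow_div K.card).const_mul ((q * m + 1 : ℕ) : ℝ)
  rw [mul_zero] at h3
  have h4 := h3.eventually (gt_mem_nhds (by positivity : (0 : ℝ) < ε / 2))
  refine (h2.and_eventually (h4.and (eventually_ge_atTop 1))).mono ?_
  rintro N ⟨h5, h6, hN1⟩
  have hN0 : (0 : ℝ) < N := by exact_mod_cast hN1
  have hl : 0 ≤ Real.log N := Real.log_natCast_nonneg N
  have hlk : 0 ≤ Real.log N ^ K.card / N := by positivity
  have k1 : (cnt K (q * m) (lft K q (q * m) B) N : ℝ) ≤ cnt K q B N := by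
    exact_mod_cast cnt_lft_le B N
  have k2 : (cnt K q B N : ℝ) ≤ cnt K (q * m) (lft K q (q * m) B) N + ((q * m + 1 : ℕ) : ℝ) := by
    exact_mod_cast cnt_le_lft hq hm B N
  have e1 : D * (lft K q (q * m) B).card / (Adm K (q * m)).card = D * B.card / (Adm K q).card := by
    have h7 : ((lft K q (q * m) B).card : ℝ) * (Adm K q).card = B.card * (Adm K (q * m)).card := by
      exact_mod_cast card_lft hq hB
    rw [div_eq_div_iff hν'.ne' hν.ne']
    linear_combination D * h7
  have e2 := sum_dev K D (q * m) N (lft K q (q * m) B)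
  have e3 := sum_dev K D q N B
  rw [e1] at e2
  have e4 : |∑ a ∈ B, dev K D q N a - ∑ a ∈ lft K q (q * m) B, dev K D (q * m) N a| ≤
      ((q * m + 1 : ℕ) : ℝ) * (Real.log N ^ K.card / N) := by
    rw [e2, e3]
    have e5 : (cnt K q B N : ℝ) * Real.log N ^ K.card / N - D * B.card / (Adm K q).card -
        ((cnt K (q * m) (lft K q (q * m) B) N : ℝ) * Real.log N ^ K.card / N -
        D * B.card / (Adm K q).card) = ((cnt K q B N : ℝ) -
        cnt K (q * m) (lft K q (q * m) B) N) * (Real.log N ^ K.card / N) := by ring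
    rw [e5, abs_mul, abs_of_nonneg hlk]
    apply mul_le_mul_of_nonneg_right _ hlk
    rw [abs_of_nonneg (by linarith)]
    linarith
  have e6 : |∑ a ∈ lft K q (q * m) B, dev K D (q * m) N a| ≤
      ∑ a ∈ Adm K (q * m), |dev K D (q * m) N a| := by
    refine (abs_sum_le_sum_abs _ _).trans ?_
    refine sum_le_sum_of_subset_of_nonneg ?_ fun _ _ _ => abs_nonneg _
    unfold lft
    exact filter_subset _ _
  have e7 := abs_sub_abs_le_abs_sub (∑ a ∈ B, dev K D q N a)
    (∑ a ∈ lft K q (q * m) B, dev K D (q * m) N a)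
  linarith

open Classical in
/-- **Zero-one law** -/
theorem zero_one (hK : IsAdm K) {D : ℝ} {q : ℕ} (hq : 0 < q) {B : Finset ℕ}
    (hB : B ⊆ Adm K q) (h : ¬ Right K D q B) : ∃ C : ℝ, 0 < C ∧ ∀ P : ℕ, 0 < P → q ∣ P →
      (nR K D P : ℝ) ≤ C * 2 ^ (Adm K P).card / √((Adm K P).card : ℝ) := by
  obtain ⟨c0, hc0, hfr⟩ := frequently_large hK hq hB h
  obtain ⟨B', hB', hdev⟩ := dev_bound K D
  refine ⟨(5 + 27 / c0) * B', by positivity, ?_⟩
  rintro P hP ⟨m, rfl⟩
  have hm : 0 < m := Nat.pos_of_mul_pos_left hP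
  have h1 := Q197.PS.few_col (l := atTop) (Adm K (q * m)) (card_pos.1 (Adm_pos hK hP))
    (fun N a => dev K D (q * m) N a) hc0 hB' (hdev _ hP) (hfr m hm) (fun _ => 0)
  have h2 : (nR K D (q * m) : ℝ) ≤ (5 + 27 / c0) * (B' / √((Adm K (q * m)).card : ℝ)) *
      2 ^ (Adm K (q * m)).card := by
    have e : (Adm K (q * m)).powerset.filter (fun A => Right K D (q * m) A) =
        (Adm K (q * m)).powerset.filter (fun A => Tendsto (fun N => ∑ a ∈ A,
          dev K D (q * m) N a - 0) atTop (𝓝 0)) := filter_congr fun A _ => right_iff K D (q * m) A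
    unfold nR
    rw [e]
    exact h1
  refine h2.trans (le_of_eq ?_)
  ring

/-- from large shares to one union -/
theorem right_of_share (hK : IsAdm K) {D : ℝ} {q : ℕ} (hq : 0 < q) {B : Finset ℕ}
    (hB : B ⊆ Adm K q)
    (h : ∀ M : ℝ, ∃ P : ℕ, 0 < P ∧ q ∣ P ∧ M * 2 ^ (Adm K P).card / √((Adm K P).card : ℝ) ≤
      nR K D P) : Right K D q B := by
  by_contra hcon
  obtain ⟨C, hC, h1⟩ := zero_one hK hq hB hcon
  obtain ⟨P, hP, hd, h2⟩ := h (C + 1)
  have h3 := h2.trans (h1 P hP hd)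
  have hν : (0 : ℝ) < (Adm K P).card := by exact_mod_cast Adm_pos hK hP
  rw [div_le_div_iff_of_pos_right (Real.sqrt_pos.2 hν)] at h3
  have h4 : (0 : ℝ) < 2 ^ (Adm K P).card := by positivity
  nlinarith

theorem share_of_all (hK : IsAdm K) {D : ℝ}
    (h : ∀ q : ℕ, 0 < q → ∀ B ⊆ Adm K q, Right K D q B) {q : ℕ} (hq : 0 < q) (M : ℝ) :
    ∃ P : ℕ, 0 < P ∧ q ∣ P ∧ M * 2 ^ (Adm K P).card / √((Adm K P).card : ℝ) ≤ nR K D P := by
  classical
  obtain ⟨j, hj⟩ := exists_nat_gt (M ^ 2)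
  have hQ : 0 < q * 2 := by omega
  have hP : 0 < q * 2 * (q * 2) ^ j := Nat.mul_pos hQ (pow_pos hQ _)
  refine ⟨q * 2 * (q * 2) ^ j, hP, ⟨2 * (q * 2) ^ j, by ring⟩, ?_⟩
  have h1 : nR K D (q * 2 * (q * 2) ^ j) = 2 ^ (Adm K (q * 2 * (q * 2) ^ j)).card := by
    unfold nR
    rw [filter_true_of_mem (fun A hA => h _ hP A (mem_powerset.1 hA)), card_powerset]
  rw [h1]
  have h2 : (j : ℝ) ≤ (Adm K (q * 2 * (q * 2) ^ j)).card := by
    rw [card_pow hQ]
    have h3 : j ≤ (q * 2) ^ j := by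
      have h4 : j < 2 ^ j := Nat.lt_two_pow_self
      have h5 : 2 ^ j ≤ (q * 2) ^ j := Nat.pow_le_pow_left (by omega) j
      omega
    have h4 := Adm_pos hK hQ
    have h5 : j ≤ (Adm K (q * 2)).card * (q * 2) ^ j := h3.trans (Nat.le_mul_of_pos_left _ h4)
    exact_mod_cast h5
  have hν : (0 : ℝ) < (Adm K (q * 2 * (q * 2) ^ j)).card := by exact_mod_cast Adm_pos hK hP
  push_cast
  rw [div_le_iff₀ (Real.sqrt_pos.2 hν), mul_comm]
  apply mul_le_mul_of_nonneg_left _ (by positivity)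
  apply Real.le_sqrt_of_sq_le
  linarith

/-- **Equivalence** -/
theorem all_iff (hK : IsAdm K) (D : ℝ) :
    (∀ q : ℕ, 0 < q → ∀ B ⊆ Adm K q, Right K D q B) ↔
    ∀ q : ℕ, 0 < q → ∀ M : ℝ, ∃ P : ℕ, 0 < P ∧ q ∣ P ∧
      M * 2 ^ (Adm K P).card / √((Adm K P).card : ℝ) ≤ nR K D P :=
  ⟨fun h _ hq M => share_of_all hK h hq M, fun h q hq _ hB => right_of_share hK hq hB (h q hq)⟩

end Pool.Agent.Q13.TU
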